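import Pool.Agent.MP_7f9305_lc.H61.Gram

set_option autoImplicit false

open Pool.Agent.MP_7f9305_lc.H61

/-- Some propagating left forbidding E0L grammar generates a language that no ET0L grammar
generates; hence ET0L differs from LF-E0L. -/
theorem Pool.Agent.Results.MP_7f9305_lc.NotET0L.result :
    ∃ G : LFE0L, (∀ r ∈ G.P, r.2.1 ≠ []) ∧ ∀ H : ET0L, H.lang ≠ G.lang :=
  ⟨gram, by decide, not_etol⟩
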